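import Pool.Agent.X300.HS.Main

/-!
# The Hodge standard conjecture for products with almost all abelian varieties: all polarisations
-/

set_option autoImplicit false
set_option linter.unusedSectionVars false

namespace Pool.Agent.X300.HS

open Module Polynomial Finset Pool.Agent.Y156.L Pool.Agent.X300.RB Pool.Agent.X268.TR

/-- The cycles of codimension zero on `Z` are the multiples of the class `u` of `Z`. -/
def IsFundamental {K : Type} [Field K] {A : AbelianData K} (T : RelData A) (u : T.N) : Prop :=
  ∀ n, T.DegN 0 0 n → ∃ b : ℚ, n = T.scaleN b u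

/-- Every divisor class on `A × Z` is the sum of the pull-backs of a divisor class of `A` and a divisor
class of `Z`, where `u` is the class of `Z`. So every ample class of `A × Z` is such a sum. -/
def DivisorsSplit {K : Type} [Field K] {A : AbelianData K} (T : RelData A) (u : T.N) : Prop :=
  ∀ x, T.DegM 2 1 x → ∃ (D : A.CH) (w : T.N), A.Codim 1 D ∧ T.DegN 2 1 w ∧
    x = T.mul D u + T.mul 1 w

/-- `HodgeAllForRankOver E q r f`: for every abelian variety `A` as in `IsAbelian` with an ample class,
and for all `T` (cycles modulo numerical equivalence on `Z` and `A × Z`) with the formal properties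
and of rank at most `r` over `E`: the Hodge standard conjecture for `Z` implies the one for `A × Z` and
the sum of the ample classes, and if `Z` is connected then every divisor class on `A × Z` is such a
sum. -/
def HodgeAllForRankOver (E : IntermediateField ℚ ℂ) (q r : ℕ) {I : Type} (f : I → ℤ[X]) : Prop :=
  ∀ (K : Type) [Field K] [CharZero K] (A : AbelianData K) (s : ℕ), IsAbelian A q s f →
    ∀ (l : A.CH) (S : Type) [Fintype S] (a m : S → ℕ) (α : S → A.CH), IsPolarised A l a m α →
      ∀ (T : RelData A) (O : Operators T), IsRel (q ^ s) T → IsPureCycles T (q ^ s) →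
        HasCycleRank T (q ^ s) E r → IsNumerical l O →
          (∀ u : T.N, IsFundamental T u → DivisorsSplit T u) ∧
          ∀ d : ℕ, HodgeN O d → HodgeM O (A.dim + d)

section

variable {K : Type} [Field K] {A : AbelianData K} {T : RelData A} {l : A.CH} {O : Operators T}

theorem split_of_kunneth (hO : IsNumerical l O) (u : T.N) (hu : IsFundamental T u) {J : Type}
    [Fintype J] (c : J → ℕ) (D : J → A.CH) (hD : ∀ t, A.IsDivisorProduct (c t) (D t))
    (hD1 : ∀ t, A.Codim (c t) (D t)) (x : T.M) (z : J → T.N)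
    (hz : ∀ t, T.DegN (2 * (1 - (c t : ℤ))) (1 - (c t : ℤ)) (z t))
    (hx : x = ∑ t, T.times (D t) (z t)) :
    ∃ (D' : A.CH) (w : T.N), A.Codim 1 D' ∧ T.DegN 2 1 w ∧ x = T.mul D' u + T.mul 1 w := by
  have key : ∀ t, ∃ (D' : A.CH) (w : T.N), D' ∈ A.codim 1 ∧ w ∈ T.grN 2 1 ∧
      T.times (D t) (z t) = T.times D' u + T.times 1 w := by
    intro t
    have h1 := hz t
    rcases Nat.lt_trichotomy (c t) 1 with h | h | h
    · have h0 : c t = 0 := by omega
      have h2 : D t = 1 := by
        have h3 := hD t
        rw [h0] at h3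
        obtain ⟨L, hL, -, hy⟩ := h3
        rw [hy, List.length_eq_zero_iff.mp hL, List.prod_nil]
      rw [h0] at h1
      refine ⟨0, z t, Submodule.zero_mem _, ?_, ?_⟩
      · have h3 : T.DegN 2 1 (z t) := by simpa using h1
        exact h3
      · rw [map_zero, LinearMap.zero_apply, zero_add, h2]
    · rw [h] at h1
      obtain ⟨b, hb⟩ := hu (z t) (by simpa using h1)
      change z t = b • u at hb
      refine ⟨b • D t, 0, Submodule.smul_mem _ _ ?_, Submodule.zero_mem _, ?_⟩
      · have h3 := hD1 t
        rw [h] at h3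
        exact h3
      · rw [hb, map_smul, map_smul, LinearMap.smul_apply, map_zero, add_zero]
    · have h2 : z t = 0 := hO.negative _ (by omega) _ h1
      refine ⟨0, 0, Submodule.zero_mem _, Submodule.zero_mem _, ?_⟩
      rw [h2, map_zero, map_zero, map_zero, LinearMap.zero_apply, add_zero]
  choose D' w h1 h2 h3 using key
  refine ⟨∑ t, D' t, ∑ t, w t, Submodule.sum_mem _ fun t _ => h1 t,
    Submodule.sum_mem _ fun t _ => h2 t, ?_⟩
  change x = T.times (∑ t, D' t) u + T.times 1 (∑ t, w t)
  rw [hx, map_sum, LinearMap.sum_apply, map_sum, ← sum_add_distrib]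
  exact sum_congr rfl fun t _ => h3 t

end

section count

variable {I : Type} [Fintype I] (g : I → ℕ) (r : ℕ) (hr : ∀ i, r < g i)
  (E : IntermediateField ℚ ℂ) [FiniteDimensional ℚ E]

include hr

theorem hodgeAll_of_cycles (q : ℕ) (f : I → ℤ[X]) (hf : CyclesForRankOver E q r f) :
    HodgeAllForRankOver E q r f := by
  intro K _ _ A s hA l S _ a m α hP T O hT hpure hrank hO
  obtain ⟨J, hJ, c, D, hF, h⟩ := hf K A s hA
  -- the cycle class map from `T` to itself
  let ρ : Regulator T T := ⟨LinearMap.id, LinearMap.id⟩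
  have hρ : IsRegulator ρ :=
    { memN := fun h => h
      memM := fun h => h
      mul := fun _ _ => rfl
      push := fun _ _ => rfl }
  obtain ⟨hk, -⟩ := h T T ρ hT hT hpure hrank hrank hρ
  refine ⟨fun u hu x hx => ?_, fun d hN => ?_⟩
  · have hx' : T.DegM (2 * 1) 1 x := by simpa using hx
    obtain ⟨z, ⟨hz1, hz⟩, -⟩ := hk 1 x (hpure 1 x hx')
    exact split_of_kunneth hO u hu c D hF.product (fun t => divisorProduct_mem hA (hF.product t))
      x z (fun t => (hz1 t).1) hz
  · refine hodge_of_kunneth hA.chow hP hT hO d hN c D hF.product fun j x hx => ?_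
    obtain ⟨z, ⟨-, hz⟩, -⟩ := hk j x (hpure j x hx)
    exact ⟨z, hz⟩

theorem count_hodgeAll : AlmostAll g fun q f => HodgeAllForRankOver E q r f := by
  obtain ⟨C, hC⟩ := count_cycles g r hr E
  refine ⟨C, fun q hq S hS => ?_⟩
  obtain ⟨h1, h2⟩ := hC q hq S hS
  refine ⟨h1, le_trans ?_ h2⟩
  have hfin : {f : I → ℤ[X] | (∀ i, f i ∈ S i) ∧ ¬ CyclesForRankOver E q r f}.Finite := by
    refine Set.Finite.subset (Set.Finite.pi' fun i => (h1 i).1) fun f hf => ?_
    exact hf.1
  have hsub : {f : I → ℤ[X] | (∀ i, f i ∈ S i) ∧ ¬ HodgeAllForRankOver E q r f} ⊆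
      {f : I → ℤ[X] | (∀ i, f i ∈ S i) ∧ ¬ CyclesForRankOver E q r f} :=
    fun f hf => ⟨hf.1, fun h => hf.2 (hodgeAll_of_cycles g r hr E q f h)⟩
  exact_mod_cast Set.ncard_le_ncard hsub hfin

end count

end Pool.Agent.X300.HS
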