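import Pool.Agent.X268.TR.Lm
import Pool.Agent.X300.RB.CycDefs

/-!
# The Hodge standard conjecture for products with almost all abelian varieties: definitions
-/

set_option autoImplicit false

namespace Pool.Agent.X300.HS

open Polynomial Pool.Agent.Y156.L Pool.Agent.X300.RB Pool.Agent.X268.TR

variable {K : Type} [Field K]

/-- The cycle class `y` on `A` is numerically equivalent to zero. -/
def NumTrivial (A : AbelianData K) (y : A.CH) : Prop := ∀ x, A.deg (y * x) = 0

/-- The coefficient of `α * l ^ k` in the expansion of `x` along the string of `α`. -/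
noncomputable def coef (A : AbelianData K) (l α : A.CH) (m k : ℕ) (x : A.CH) : ℚ :=
  A.deg (x * (α * l ^ (m - k))) / A.deg (α * α * l ^ m)

/-- The difference of `x` and its expansion in the elements `α s * l ^ k`, `k ≤ m s`. -/
noncomputable def remainder (A : AbelianData K) (l : A.CH) {S : Type} [Fintype S] (m : S → ℕ)
    (α : S → A.CH) (x : A.CH) : A.CH :=
  x - ∑ s, ∑ k ∈ Finset.range (m s + 1), coef A l (α s) (m s) k x • (α s * l ^ k)

/-- The known facts on the Lefschetz classes on the abelian variety `A` with the ample class `l`, the
hard Lefschetz theorem and the Hodge standard conjecture for the classes generated by divisors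
(Milne): there are primitive classes `α s` of codimension `a s`, orthogonal to each other, with the
sign of the conjecture, such that every product of divisors is numerically a combination of the
`α s * l ^ k`. -/
structure IsPolarised (A : AbelianData K) (l : A.CH) {S : Type} [Fintype S] (a m : S → ℕ)
    (α : S → A.CH) : Prop where
  divisor : A.Codim 1 l
  codim : ∀ s, A.Codim (a s) (α s)
  length : ∀ s, 2 * a s + m s = A.dim
  pos : ∀ s, 0 < (-1) ^ a s * A.deg (α s * α s * l ^ m s)
  orthogonal : ∀ s t, s ≠ t → ∀ k, A.deg (α s * α t * l ^ k) = 0
  primitive : ∀ s, NumTrivial A (α s * l ^ (m s + 1))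
  span : ∀ n x, A.IsDivisorProduct n x → NumTrivial A (remainder A l m α x)

/-- The Lefschetz operators and the intersection forms on the cycles modulo numerical equivalence on
`Z` and `A × Z`. -/
structure Operators {A : AbelianData K} (T : RelData A) where
  LN : Module.End ℚ T.N
  LM : Module.End ℚ T.M
  BN : T.N →ₗ[ℚ] T.N →ₗ[ℚ] ℚ
  BM : T.M →ₗ[ℚ] T.M →ₗ[ℚ] ℚ

/-- Multiplication by the ample class of `Z`. -/
def Operators.lefN {A : AbelianData K} {T : RelData A} (O : Operators T) (n : T.N) : T.N := O.LN n

/-- Multiplication by the ample class of `A × Z`. -/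
def Operators.lefM {A : AbelianData K} {T : RelData A} (O : Operators T) (m : T.M) : T.M := O.LM m

/-- The intersection number of two cycles on `Z`. -/
def Operators.dotN {A : AbelianData K} {T : RelData A} (O : Operators T) (x y : T.N) : ℚ := O.BN x y

/-- The intersection number of two cycles on `A × Z`. -/
def Operators.dotM {A : AbelianData K} {T : RelData A} (O : Operators T) (x y : T.M) : ℚ := O.BM x y

/-- The formal properties: the product with a class on `A` which is numerically trivial is zero; the
ample class of `A × Z` is the sum of those of `A` and `Z`; the projection formula; there are no cycles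
of negative codimension. -/
structure IsNumerical {A : AbelianData K} (l : A.CH) {T : RelData A} (O : Operators T) : Prop where
  kill : ∀ y n, NumTrivial A y → T.mul y n = 0
  lefschetz : ∀ x n, O.lefM (T.mul x n) = T.mul (l * x) n + T.mul x (O.lefN n)
  projection : ∀ x n m, O.dotM (T.mul x n) m = O.dotN n (T.push x m)
  negative : ∀ j : ℤ, j < 0 → ∀ n, T.DegN (2 * j) j n → n = 0

/-- The hard Lefschetz theorem for the cycles modulo numerical equivalence on `Z`, of dimension `d`,
and the Hodge standard conjecture for `Z`. -/
def HodgeN {A : AbelianData K} {T : RelData A} (O : Operators T) (d : ℕ) : Prop :=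
  IsLM d (fun j => T.grN (2 * j) j) O.LN O.BN

/-- The Hodge standard conjecture for `A × Z`: the form is positive on the primitive cycles modulo
numerical equivalence of codimension `j`, where `2 j + p` is the dimension `n` of `A × Z`. -/
def HodgeM {A : AbelianData K} {T : RelData A} (O : Operators T) (n : ℕ) : Prop :=
  ∀ j p : ℕ, 2 * j + p = n → ∀ x, T.DegM (2 * j) j x → (O.LM ^ (p + 1)) x = 0 → x ≠ 0 →
    0 < (-1) ^ j * O.BM x ((O.LM ^ p) x)

/-- `HodgeForRankOver E q r f`: for every abelian variety `A` as in `IsAbelian` with an ample class,
and for all `T` (cycles modulo numerical equivalence on `Z` and `A × Z`) with the formal properties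
and of rank at most `r` over `E`: the Hodge standard conjecture for `Z` implies the one for
`A × Z`. -/
def HodgeForRankOver (E : IntermediateField ℚ ℂ) (q r : ℕ) {I : Type} (f : I → ℤ[X]) : Prop :=
  ∀ (K : Type) [Field K] [CharZero K] (A : AbelianData K) (s : ℕ), IsAbelian A q s f →
    ∀ (l : A.CH) (S : Type) [Fintype S] (a m : S → ℕ) (α : S → A.CH), IsPolarised A l a m α →
      ∀ (T : RelData A) (O : Operators T), IsRel (q ^ s) T → IsPureCycles T (q ^ s) →
        HasCycleRank T (q ^ s) E r → IsNumerical l O →
          ∀ d : ℕ, HodgeN O d → HodgeM O (A.dim + d)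

end Pool.Agent.X300.HS
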