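import Pool.Agent.X300.HS.Str
import Pool.Agent.X300.HS.Defs
import Pool.Agent.X300.RB.Cyc

/-!
# The Hodge standard conjecture for products with almost all abelian varieties
-/

set_option autoImplicit false
set_option linter.unusedSectionVars false

namespace Pool.Agent.X300.HS

open Module Polynomial Finset Pool.Agent.Y156.L Pool.Agent.X300.RB Pool.Agent.X268.TR

section

variable {K : Type} [Field K] {A : AbelianData K} {Q : ℕ} {T : RelData A} {l : A.CH} {S : Type}
  [Fintype S] {a m : S → ℕ} {α : S → A.CH} {O : Operators T}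

/-- The element of the theory for `A × Z` given by a family of sequences. -/
noncomputable def psi (T : RelData A) (l : A.CH) (m : S → ℕ) (α : S → A.CH) (z : S → ℕ → T.N) :
    T.M := ∑ s, ∑ k ∈ range (m s + 1), T.times (α s * l ^ k) (z s k)

section

variable (hA : IsChowRing A) (hP : IsPolarised A l a m α) (hT : IsRel Q T)
  (hO : IsNumerical l O)

include hP in
theorem top_ne (s : S) : A.deg (α s * α s * l ^ m s) ≠ 0 := by
  intro h
  have h1 := hP.pos s
  rw [h, mul_zero] at h1
  exact lt_irrefl _ h1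

include hA in
theorem pow_mem (hl : A.Codim 1 l) (k : ℕ) : A.Codim k (l ^ k) := by
  induction k with
  | zero =>
    rw [pow_zero]
    exact hA.one_mem
  | succ k ih =>
    rw [pow_succ]
    exact hA.mul_mem ih hl

include hA hP in
theorem mem_string (s : S) (k : ℕ) : A.Codim (a s + k) (α s * l ^ k) :=
  hA.mul_mem (hP.codim s) (pow_mem hA hP.divisor k)

include hA hP in
theorem deg_string (s t : S) (i k : ℕ) (h : s ≠ t ∨ i + k ≠ m s) :
    A.deg (α s * l ^ i * (α t * l ^ k)) = 0 := by
  have h1 : α s * l ^ i * (α t * l ^ k) = α s * α t * l ^ (i + k) := by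
    rw [pow_add]
    ring
  rw [h1]
  by_cases hst : s = t
  · subst hst
    have h2 : i + k ≠ m s := h.resolve_left (fun h => h rfl)
    have h3 := hP.length s
    refine hA.deg_eq_zero (c := a s + a s + (i + k)) (by omega) ?_
    exact hA.mul_mem (hA.mul_mem (hP.codim s) (hP.codim s)) (pow_mem hA hP.divisor _)
  · exact hP.orthogonal s t hst _

include hT in
theorem pair_times (x y : A.CH) (n : T.N) : T.pair x (T.times y n) = A.deg (x * y) • n :=
  hT.graded.push_mul x y n

include hA hP hT in
theorem pair_psi (z : S → ℕ → T.N) (s : S) (i : ℕ) (hi : i ≤ m s) :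
    T.pair (α s * l ^ i) (psi T l m α z) = A.deg (α s * α s * l ^ m s) • z s (m s - i) := by
  unfold psi
  rw [map_sum, sum_eq_single s]
  · rw [map_sum, sum_eq_single (m s - i)]
    · rw [pair_times hT]
      congr 2
      rw [show α s * l ^ i * (α s * l ^ (m s - i)) = α s * α s * (l ^ i * l ^ (m s - i)) by ring,
        ← pow_add, Nat.add_sub_cancel' hi]
    · intro k _ hk
      rw [pair_times hT, deg_string hA hP s s i k (Or.inr (by omega)), zero_smul]
    · intro h
      exact absurd (mem_range.mpr (by omega)) h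
  · intro t _ hts
    rw [map_sum]
    refine sum_eq_zero fun k _ => ?_
    rw [pair_times hT, deg_string hA hP s t i k (Or.inl (Ne.symm hts)), zero_smul]
  · intro h
    exact absurd (mem_univ s) h

/-- The coefficients. -/
noncomputable def zz (T : RelData A) (l : A.CH) (m : S → ℕ) (α : S → A.CH) (x : T.M) :
    S → ℕ → T.N :=
  fun s k => (A.deg (α s * α s * l ^ m s))⁻¹ • T.pair (α s * l ^ (m s - k)) x

include hP hT hO in
theorem psi_zz_times (n : ℕ) (x : A.CH) (hx : A.IsDivisorProduct n x) (w : T.N) :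
    psi T l m α (zz T l m α (T.times x w)) = T.times x w := by
  have h1 := hO.kill _ w (hP.span n x hx)
  change T.times (remainder A l m α x) w = 0 at h1
  unfold remainder at h1
  rw [map_sub, LinearMap.sub_apply, sub_eq_zero] at h1
  conv_rhs => rw [h1]
  unfold psi zz
  rw [map_sum, LinearMap.sum_apply]
  refine sum_congr rfl fun s _ => ?_
  rw [map_sum, LinearMap.sum_apply]
  refine sum_congr rfl fun k _ => ?_
  rw [pair_times hT, map_smul, map_smul, map_smul, LinearMap.smul_apply, smul_smul]
  unfold coef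
  congr 1
  rw [mul_comm x, div_eq_inv_mul]

theorem psi_add (z w : S → ℕ → T.N) : psi T l m α (z + w) = psi T l m α z + psi T l m α w := by
  unfold psi
  rw [← sum_add_distrib]
  refine sum_congr rfl fun s _ => ?_
  rw [← sum_add_distrib]
  refine sum_congr rfl fun k _ => ?_
  exact map_add _ _ _

theorem psi_zero : psi T l m α 0 = 0 := by
  unfold psi
  refine sum_eq_zero fun s _ => sum_eq_zero fun k _ => ?_
  exact map_zero _

theorem zz_add (x y : T.M) : zz T l m α (x + y) = zz T l m α x + zz T l m α y := by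
  funext s k
  unfold zz
  simp only [Pi.add_apply, map_add, smul_add]

theorem zz_zero : zz T l m α 0 = 0 := by
  funext s k
  unfold zz
  simp only [Pi.zero_apply, map_zero, smul_zero]

include hP hT hO in
theorem psi_zz_sum {J : Type} [Fintype J] (c : J → ℕ) (D : J → A.CH)
    (hD : ∀ t, A.IsDivisorProduct (c t) (D t)) (w : J → T.N) (s : Finset J) :
    psi T l m α (zz T l m α (∑ t ∈ s, T.times (D t) (w t))) = ∑ t ∈ s, T.times (D t) (w t) := by
  classical
  induction s using Finset.induction_on with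
  | empty => rw [sum_empty, zz_zero, psi_zero]
  | insert t s ht ih =>
    rw [sum_insert ht, zz_add, psi_add, ih, psi_zz_times hP hT hO (c t) (D t) (hD t)]

include hO hP in
theorem LM_psi (z : S → ℕ → T.N) :
    O.LM (psi T l m α z) = psi T l m α fun s => sh O.LN (z s) := by
  unfold psi
  rw [map_sum]
  refine sum_congr rfl fun s _ => ?_
  rw [map_sum]
  have h1 : ∀ k, O.LM (T.times (α s * l ^ k) (z s k)) =
      T.times (α s * l ^ (k + 1)) (z s k) + T.times (α s * l ^ k) (O.LN (z s k)) := by
    intro k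
    have h2 := hO.lefschetz (α s * l ^ k) (z s k)
    change O.LM (T.times (α s * l ^ k) (z s k)) =
      T.times (l * (α s * l ^ k)) (z s k) + T.times (α s * l ^ k) (O.LN (z s k)) at h2
    rw [h2, pow_succ]
    congr 3
    ring
  have h3 : T.times (α s * l ^ (m s + 1)) (z s (m s)) = 0 := hO.kill _ _ (hP.primitive s)
  rw [sum_congr rfl fun k _ => h1 k, sum_add_distrib, sum_range_succ (fun k =>
    T.times (α s * l ^ (k + 1)) (z s k)) (m s), h3, add_zero, sum_range_succ' (fun k =>
    T.times (α s * l ^ k) (O.LN (z s k))) (m s), sum_range_succ' (fun k =>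
    T.times (α s * l ^ k) (sh O.LN (z s) k)) (m s), ← add_assoc, ← sum_add_distrib]
  congr 1
  refine sum_congr rfl fun k _ => ?_
  change _ = T.times (α s * l ^ (k + 1)) (O.LN (z s (k + 1)) + z s k)
  rw [map_add, add_comm]

include hO hP in
theorem LM_pow_psi (p : ℕ) (z : S → ℕ → T.N) :
    (O.LM ^ p) (psi T l m α z) = psi T l m α fun s => (sh O.LN)^[p] (z s) := by
  induction p generalizing z with
  | zero => rfl
  | succ p ih =>
    rw [pow_succ, Module.End.mul_apply, LM_psi hP hO, ih]
    rfl

include hA hP hT hO in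
theorem BM_psi (z y : S → ℕ → T.N) : O.BM (psi T l m α z) (psi T l m α y) =
    ∑ s, A.deg (α s * α s * l ^ m s) * form O.BN (m s) (z s) (y s) := by
  conv_lhs => enter [1]; unfold psi
  rw [map_sum, LinearMap.sum_apply]
  refine sum_congr rfl fun s _ => ?_
  rw [map_sum, LinearMap.sum_apply, form, mul_sum]
  refine sum_congr rfl fun k hk => ?_
  have hk' : k ≤ m s := by
    rw [mem_range] at hk
    omega
  have h1 := hO.projection (α s * l ^ k) (z s k) (psi T l m α y)
  change O.BM (T.times (α s * l ^ k) (z s k)) (psi T l m α y) =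
    O.BN (z s k) (T.pair (α s * l ^ k) (psi T l m α y)) at h1
  rw [h1, pair_psi hA hP hT y s k hk', map_smul, smul_eq_mul]

include hA hP hT hO in
/-- The main theorem for a cycle theory which satisfies the Kunneth formula. -/
theorem hodge_of_kunneth (d : ℕ) (hN : HodgeN O d) {J : Type} [Fintype J] (c : J → ℕ)
    (D : J → A.CH) (hD : ∀ t, A.IsDivisorProduct (c t) (D t))
    (hexp : ∀ (j : ℤ) (x : T.M), T.DegM (2 * j) j x → ∃ w : J → T.N, x = ∑ t, T.times (D t) (w t)) :
    HodgeM O (A.dim + d) := by
  intro j p hjp x hx hprim hx0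
  obtain ⟨w, hw⟩ := hexp j x hx
  have hxz : psi T l m α (zz T l m α x) = x := by
    rw [hw]
    exact psi_zz_sum hP hT hO c D hD w univ
  -- the degrees of the coefficients
  have hdeg : ∀ s k, k ≤ m s →
      T.DegN (2 * ((j : ℤ) - (a s + k : ℕ))) ((j : ℤ) - (a s + k : ℕ)) (zz T l m α x s k) := by
    intro s k hk
    have h1 := hP.length s
    have h2 := hT.graded.push_mem (c := a s + k) (d := a s + (m s - k)) (by omega)
      (mem_string hA hP s (m s - k)) hx
    rw [← mul_sub] at h2
    exact Submodule.smul_mem _ _ h2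
  have hprim' : ∀ s, ∀ k ≤ m s, (sh O.LN)^[p + 1] (zz T l m α x s) k = 0 := by
    intro s k hk
    rw [← hxz, LM_pow_psi hP hO] at hprim
    have h1 := pair_psi hA hP hT (fun s => (sh O.LN)^[p + 1] (zz T l m α x s)) s (m s - k)
      (Nat.sub_le _ _)
    rw [hprim, map_zero, show m s - (m s - k) = k by omega] at h1
    exact (smul_eq_zero.mp h1.symm).resolve_left (top_ne hP s)
  have hterm : ∀ s, 0 ≤ (-1 : ℚ) ^ j * (A.deg (α s * α s * l ^ m s) *
        form O.BN (m s) (zz T l m α x s) ((sh O.LN)^[p] (zz T l m α x s))) ∧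
      ((∃ k ≤ m s, zz T l m α x s k ≠ 0) → 0 < (-1 : ℚ) ^ j * (A.deg (α s * α s * l ^ m s) *
        form O.BN (m s) (zz T l m α x s) ((sh O.LN)^[p] (zz T l m α x s)))) := by
    intro s
    have hpos : (∃ k ≤ m s, zz T l m α x s k ≠ 0) → 0 < (-1 : ℚ) ^ j *
        (A.deg (α s * α s * l ^ m s) *
          form O.BN (m s) (zz T l m α x s) ((sh O.LN)^[p] (zz T l m α x s))) := by
      intro hne
      have hle : a s ≤ j := by
        by_contra hlt
        obtain ⟨k, hk, hzk⟩ := hne
        exact hzk (hO.negative _ (by push_cast; omega) _ (hdeg s k hk))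
      have h1 := string_pos (m s) hN (j - a s) p (by have := hP.length s; omega)
        (zz T l m α x s) (fun k hk hkj => by
          have h2 := hdeg s k hk
          have h3 : (j : ℤ) - (a s + k : ℕ) = ((j - a s - k : ℕ) : ℤ) := by omega
          rw [h3] at h2
          exact h2)
        (fun k hk hkj => hO.negative _ (by push_cast; omega) _ (hdeg s k hk))
        (hprim' s) hne
      have h2 := mul_pos (hP.pos s) h1
      have h3 : (-1 : ℚ) ^ j = (-1) ^ a s * (-1) ^ (j - a s) := by
        rw [← pow_add, Nat.add_sub_cancel' hle]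
      rw [h3]
      calc (0 : ℚ) < _ := h2
        _ = _ := by ring
    refine ⟨?_, hpos⟩
    by_cases hne : ∃ k ≤ m s, zz T l m α x s k ≠ 0
    · exact (hpos hne).le
    · push Not at hne
      have h1 : form O.BN (m s) (zz T l m α x s) ((sh O.LN)^[p] (zz T l m α x s)) = 0 := by
        unfold form
        refine sum_eq_zero fun k hk => ?_
        rw [hne k (by rw [mem_range] at hk; omega), map_zero, LinearMap.zero_apply]
      rw [h1, mul_zero, mul_zero]
  have hex : ∃ s, ∃ k ≤ m s, zz T l m α x s k ≠ 0 := by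
    by_contra hcon
    push Not at hcon
    apply hx0
    rw [← hxz]
    unfold psi
    refine sum_eq_zero fun s _ => sum_eq_zero fun k hk => ?_
    rw [hcon s k (by rw [mem_range] at hk; omega), map_zero]
  obtain ⟨s₀, hs₀⟩ := hex
  have h1 : (-1 : ℚ) ^ j * O.BM x ((O.LM ^ p) x) = ∑ s, (-1 : ℚ) ^ j *
      (A.deg (α s * α s * l ^ m s) *
        form O.BN (m s) (zz T l m α x s) ((sh O.LN)^[p] (zz T l m α x s))) := by
    conv_lhs => rw [← hxz]
    rw [LM_pow_psi hP hO, BM_psi hA hP hT hO, mul_sum]
  rw [h1]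
  exact sum_pos' (fun s _ => (hterm s).1) ⟨s₀, mem_univ _, (hterm s₀).2 hs₀⟩

end

end

section count

variable {I : Type} [Fintype I] (g : I → ℕ) (r : ℕ) (hr : ∀ i, r < g i)
  (E : IntermediateField ℚ ℂ) [FiniteDimensional ℚ E]

include hr

open Pool.Agent.W521.Frob Pool.Agent.W521.Count Pool.Agent.W521.Bad Pool.Agent.W521.Descent
  Pool.Agent.W521.Density

theorem hodge_of_cycles (q : ℕ) (f : I → ℤ[X]) (hf : CyclesForRankOver E q r f) :
    HodgeForRankOver E q r f := by
  intro K _ _ A s hA l S _ a m α hP T O hT hpure hrank hO d hN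
  obtain ⟨J, hJ, c, D, hF, h⟩ := hf K A s hA
  -- the cycle class map from `T` to itself
  let ρ : Regulator T T := ⟨LinearMap.id, LinearMap.id⟩
  have hρ : IsRegulator ρ :=
    { memN := fun h => h
      memM := fun h => h
      mul := fun _ _ => rfl
      push := fun _ _ => rfl }
  obtain ⟨hk, -⟩ := h T T ρ hT hT hpure hrank hrank hρ
  refine hodge_of_kunneth hA.chow hP hT hO d hN c D hF.product fun j x hx => ?_
  obtain ⟨z, ⟨-, hz⟩, -⟩ := hk j x (hpure j x hx)
  exact ⟨z, hz⟩

theorem count_hodge : AlmostAll g fun q f => HodgeForRankOver E q r f := by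
  obtain ⟨C, hC⟩ := count_cycles g r hr E
  refine ⟨C, fun q hq S hS => ?_⟩
  obtain ⟨h1, h2⟩ := hC q hq S hS
  refine ⟨h1, le_trans ?_ h2⟩
  have hfin : {f : I → ℤ[X] | (∀ i, f i ∈ S i) ∧ ¬ CyclesForRankOver E q r f}.Finite := by
    refine Set.Finite.subset (Set.Finite.pi' fun i => (h1 i).1) fun f hf => ?_
    exact hf.1
  have hsub : {f : I → ℤ[X] | (∀ i, f i ∈ S i) ∧ ¬ HodgeForRankOver E q r f} ⊆
      {f : I → ℤ[X] | (∀ i, f i ∈ S i) ∧ ¬ CyclesForRankOver E q r f} :=
    fun f hf => ⟨hf.1, fun h => hf.2 (hodge_of_cycles g r hr E q f h)⟩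
  exact_mod_cast Set.ncard_le_ncard hsub hfin

end count

end Pool.Agent.X300.HS
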