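import Pool.Agent.X268.TR.Lm

/-!
# The product of a Lefschetz module with a string
-/

set_option autoImplicit false

namespace Pool.Agent.X300.HS

open Pool.Agent.X268.TR Finset

universe u

section

variable {M : Type u} [AddCommGroup M] [Module ℚ M]

/-- The Lefschetz operator on sequences: `z k` is the coefficient of the `k`-th power. -/
def sh (L : Module.End ℚ M) (z : ℕ → M) : ℕ → M
  | 0 => L (z 0)
  | (k + 1) => L (z (k + 1)) + z k

/-- The sequence for the product with a projective line. -/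
def W (z : ℕ → M) : ℕ → M × M := fun k => (z k, ((k : ℚ) + 1) • z (k + 1))

theorem W_sh (L : Module.End ℚ M) (z : ℕ → M) : W (sh L z) = sh (prodL 1 L) (W z) := by
  funext k
  cases k with
  | zero =>
    change (L (z 0), ((0 : ℕ) + 1 : ℚ) • (L (z 1) + z 0)) =
      (L (z 0), L (((0 : ℕ) + 1 : ℚ) • z 1) + (1 : ℚ) • z 0)
    simp
  | succ k =>
    change (L (z (k + 1)) + z k, (((k + 1 : ℕ) : ℚ) + 1) • (L (z (k + 2)) + z (k + 1))) =
      (L (z (k + 1)), L ((((k + 1 : ℕ) : ℚ) + 1) • z (k + 2)) + (1 : ℚ) • z (k + 1)) +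
        (z k, ((k : ℚ) + 1) • z (k + 1))
    refine Prod.ext rfl ?_
    change (((k + 1 : ℕ) : ℚ) + 1) • (L (z (k + 2)) + z (k + 1)) =
      (L ((((k + 1 : ℕ) : ℚ) + 1) • z (k + 2)) + (1 : ℚ) • z (k + 1)) + ((k : ℚ) + 1) • z (k + 1)
    rw [map_smul, smul_add, add_assoc, ← add_smul]
    congr 2
    push_cast
    ring

theorem W_iter (L : Module.End ℚ M) (p : ℕ) (z : ℕ → M) :
    W ((sh L)^[p] z) = (sh (prodL 1 L))^[p] (W z) := by
  induction p generalizing z with
  | zero => rfl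
  | succ p ih => rw [Function.iterate_succ_apply, Function.iterate_succ_apply, ih, W_sh]

theorem sh_iter_zero (L : Module.End ℚ M) (p : ℕ) (z : ℕ → M) :
    (sh L)^[p] z 0 = (L ^ p) (z 0) := by
  induction p generalizing z with
  | zero => rfl
  | succ p ih =>
    rw [Function.iterate_succ_apply, ih, pow_succ, Module.End.mul_apply]
    rfl

/-- The form. -/
def form (B : M →ₗ[ℚ] M →ₗ[ℚ] ℚ) (m : ℕ) (z y : ℕ → M) : ℚ :=
  ∑ k ∈ range (m + 1), B (z k) (y (m - k))

theorem form_succ (B : M →ₗ[ℚ] M →ₗ[ℚ] ℚ) (m : ℕ) (z y : ℕ → M) :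
    form (prodB B) m (W z) (W y) = ((m : ℚ) + 1) * form B (m + 1) z y := by
  unfold form
  have h1 : ∑ k ∈ range (m + 1), prodB B (W z k) (W y (m - k)) =
      ∑ k ∈ range (m + 1), ((m : ℚ) + 1 - k) * B (z k) (y (m + 1 - k)) +
      ∑ k ∈ range (m + 1), ((k : ℚ) + 1) * B (z (k + 1)) (y (m - k)) := by
    rw [← sum_add_distrib]
    refine sum_congr rfl fun k hk => ?_
    have hk' : k ≤ m := by
      rw [mem_range] at hk
      omega
    rw [prodB_apply]
    change B (z k) ((((m - k : ℕ) : ℚ) + 1) • y (m - k + 1)) +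
      B (((k : ℚ) + 1) • z (k + 1)) (y (m - k)) = _
    rw [map_smul, map_smul, LinearMap.smul_apply, smul_eq_mul, smul_eq_mul, Nat.cast_sub hk',
      show m - k + 1 = m + 1 - k by omega]
    ring
  rw [h1]
  have h2 : ∑ k ∈ range (m + 1), ((m : ℚ) + 1 - k) * B (z k) (y (m + 1 - k)) =
      ∑ k ∈ range (m + 2), ((m : ℚ) + 1 - k) * B (z k) (y (m + 1 - k)) := by
    rw [sum_range_succ _ (m + 1)]
    push_cast
    ring
  have h3 : ∑ k ∈ range (m + 1), ((k : ℚ) + 1) * B (z (k + 1)) (y (m - k)) =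
      ∑ k ∈ range (m + 2), (k : ℚ) * B (z k) (y (m + 1 - k)) := by
    rw [sum_range_succ' _ (m + 1)]
    simp only [Nat.cast_zero, zero_mul, add_zero]
    refine sum_congr rfl fun k _ => ?_
    rw [show m + 1 - (k + 1) = m - k by omega]
    push_cast
    ring
  rw [h2, h3, ← sum_add_distrib, mul_sum]
  refine sum_congr rfl fun k _ => ?_
  ring

end

/-- The product of a Lefschetz module with a string of length `m + 1` has the Hodge index
property. -/
theorem string_pos (m : ℕ) : ∀ {M : Type u} [AddCommGroup M] [Module ℚ M] {n : ℕ}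
    {gr : ℕ → Submodule ℚ M} {L : Module.End ℚ M} {B : M →ₗ[ℚ] M →ₗ[ℚ] ℚ},
    IsLM n gr L B → ∀ (j p : ℕ), 2 * j + p = n + m → ∀ z : ℕ → M,
    (∀ k ≤ m, k ≤ j → z k ∈ gr (j - k)) → (∀ k ≤ m, j < k → z k = 0) →
    (∀ k ≤ m, (sh L)^[p + 1] z k = 0) → (∃ k ≤ m, z k ≠ 0) →
    0 < (-1) ^ j * form B m z ((sh L)^[p] z) := by
  induction m with
  | zero =>
    intro M _ _ n gr L B h j p hjp z hz _ hprim hne
    obtain ⟨k, hk, hzk⟩ := hne
    obtain rfl : k = 0 := Nat.le_zero.mp hk
    have h1 := h.hodge j p hjp (z 0) (hz 0 le_rfl (Nat.zero_le _)) (by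
      rw [← sh_iter_zero]
      exact hprim 0 le_rfl) hzk
    unfold form
    rw [zero_add, sum_range_one, Nat.sub_zero, sh_iter_zero]
    exact h1
  | succ m ih =>
    intro M _ _ n gr L B h j p hjp z hz hz0 hprim hne
    have h1 := ih (h.prod one_pos) j p (by omega) (W z) ?_ ?_ ?_ ?_
    · rw [← W_iter, form_succ] at h1
      have h2 : (0 : ℚ) < (m : ℚ) + 1 := by positivity
      have h3 : (-1 : ℚ) ^ j * (((m : ℚ) + 1) * form B (m + 1) z ((sh L)^[p] z)) =
          ((m : ℚ) + 1) * ((-1) ^ j * form B (m + 1) z ((sh L)^[p] z)) := by ring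
      rw [h3] at h1
      exact (mul_pos_iff_of_pos_left h2).mp h1
    · intro k hk hkj
      have h2 := hz k (by omega) hkj
      rcases Nat.lt_or_ge k j with h3 | h3
      · obtain ⟨i, hi⟩ : ∃ i, j - k = i + 1 := ⟨j - k - 1, by omega⟩
        rw [hi] at h2 ⊢
        refine ⟨h2, Submodule.smul_mem _ _ ?_⟩
        have h4 := hz (k + 1) (by omega) (by omega)
        rwa [show j - (k + 1) = i by omega] at h4
      · have h4 : j - k = 0 := by omega
        rw [h4] at h2 ⊢
        refine ⟨h2, ?_⟩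
        change ((k : ℚ) + 1) • z (k + 1) = 0
        rw [hz0 (k + 1) (by omega) (by omega), smul_zero]
    · intro k hk hkj
      refine Prod.ext (hz0 k (by omega) hkj) ?_
      change ((k : ℚ) + 1) • z (k + 1) = 0
      rw [hz0 (k + 1) (by omega) (by omega), smul_zero]
    · intro k hk
      rw [← W_iter]
      refine Prod.ext (hprim k (by omega)) ?_
      change ((k : ℚ) + 1) • (sh L)^[p + 1] z (k + 1) = 0
      rw [hprim (k + 1) (by omega), smul_zero]
    · obtain ⟨k, hk, hzk⟩ := hne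
      rcases Nat.lt_or_ge m k with h3 | h3
      · obtain rfl : k = m + 1 := by omega
        refine ⟨m, le_rfl, fun h0 => hzk ?_⟩
        have h4 : ((m : ℚ) + 1) • z (m + 1) = 0 := congrArg Prod.snd h0
        exact (smul_eq_zero.mp h4).resolve_left (by positivity)
      · exact ⟨k, h3, fun h0 => hzk (congrArg Prod.fst h0)⟩

end Pool.Agent.X300.HS
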